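import Pool.Agent.T9h21.DP.Spec3

/-!
# DPA, piece (u1): a formula is a circuit with the same number of additions
-/

open Finset
open scoped ENNReal

set_option autoImplicit false

namespace Pool.Agent.T9h46.DP

open Pool.Agent.T9h48.SC Pool.Agent.T9h48.TSP Pool.Agent.T9h21.DP

variable {V : Type}

/-- an operand of the first circuit -/
def emb1 {s : ℕ} (s' : ℕ) : V ⊕ ℝ≥0∞ ⊕ Fin s → V ⊕ ℝ≥0∞ ⊕ Fin (s + s' + 1) :=
  Sum.map id (Sum.map id fun j => (Fin.castAdd s' j).castSucc)

/-- an operand of the second circuit -/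
def emb2 (s : ℕ) {s' : ℕ} : V ⊕ ℝ≥0∞ ⊕ Fin s' → V ⊕ ℝ≥0∞ ⊕ Fin (s + s' + 1) :=
  Sum.map id (Sum.map id fun j => (Fin.natAdd s j).castSucc)

theorem emb1_eq {s s' : ℕ} {x : V ⊕ ℝ≥0∞ ⊕ Fin s} {j : Fin (s + s' + 1)}
    (h : emb1 s' x = Sum.inr (Sum.inr j)) :
    ∃ k, x = Sum.inr (Sum.inr k) ∧ j = (Fin.castAdd s' k).castSucc := by
  rcases x with v | c | k
  · simp [emb1] at h
  · simp [emb1] at h
  · refine ⟨k, rfl, ?_⟩
    simp [emb1] at h
    exact h.symm

theorem emb2_eq {s s' : ℕ} {x : V ⊕ ℝ≥0∞ ⊕ Fin s'} {j : Fin (s + s' + 1)}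
    (h : emb2 s x = Sum.inr (Sum.inr j)) :
    ∃ k, x = Sum.inr (Sum.inr k) ∧ j = (Fin.natAdd s k).castSucc := by
  rcases x with v | c | k
  · simp [emb2] at h
  · simp [emb2] at h
  · refine ⟨k, rfl, ?_⟩
    simp [emb2] at h
    exact h.symm

/-- the combination of two families -/
def glue {X : Type} {s s' : ℕ} (f : Fin s → X) (g : Fin s' → X) (z : X) : Fin (s + s' + 1) → X :=
  Fin.snoc (α := fun _ => X) (Fin.append f g) z

theorem glue_last {X : Type} {s s' : ℕ} (f : Fin s → X) (g : Fin s' → X) (z : X) :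
    glue f g z (Fin.last _) = z := by
  unfold glue
  rw [Fin.snoc_last]

theorem glue_left {X : Type} {s s' : ℕ} (f : Fin s → X) (g : Fin s' → X) (z : X) (k : Fin s) :
    glue f g z (Fin.castAdd s' k).castSucc = f k := by
  unfold glue
  rw [Fin.snoc_castSucc, Fin.append_left]

theorem glue_right {X : Type} {s s' : ℕ} (f : Fin s → X) (g : Fin s' → X) (z : X) (k : Fin s') :
    glue f g z (Fin.natAdd s k).castSucc = g k := by
  unfold glue
  rw [Fin.snoc_castSucc, Fin.append_right]

theorem cases3 {s s' : ℕ} {P : Fin (s + s' + 1) → Prop} (h0 : P (Fin.last _))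
    (h1 : ∀ k : Fin s, P (Fin.castAdd s' k).castSucc) (h2 : ∀ k : Fin s', P (Fin.natAdd s k).castSucc)
    (i : Fin (s + s' + 1)) : P i := by
  refine Fin.lastCases h0 (fun i' => ?_) i
  exact Fin.addCases h1 h2 i'

/-- the circuit which combines the outputs of two circuits -/
def comb (b : Bool) (C C' : TropCircuit V) : TropCircuit V where
  size := C.size + C'.size + 1
  isAdd := glue C.isAdd C'.isAdd b
  left := glue (fun i => emb1 C'.size (C.left i)) (fun i => emb2 C.size (C'.left i)) (emb1 C'.size C.out)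
  right := glue (fun i => emb1 C'.size (C.right i)) (fun i => emb2 C.size (C'.right i))
    (emb2 C.size C'.out)
  out := Sum.inr (Sum.inr (Fin.last _))
  acyclic := by
    intro i j
    refine cases3 (P := fun i => (glue (fun i => emb1 C'.size (C.left i))
      (fun i => emb2 C.size (C'.left i)) (emb1 C'.size C.out) i = Sum.inr (Sum.inr j) ∨
      glue (fun i => emb1 C'.size (C.right i)) (fun i => emb2 C.size (C'.right i))
      (emb2 C.size C'.out) i = Sum.inr (Sum.inr j)) → j < i) ?_ ?_ ?_ i
    · rw [glue_last, glue_last]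
      rintro (h | h)
      · obtain ⟨k, _, rfl⟩ := emb1_eq h
        exact Fin.castSucc_lt_last _
      · obtain ⟨k, _, rfl⟩ := emb2_eq h
        exact Fin.castSucc_lt_last _
    · intro k
      rw [glue_left, glue_left]
      rintro (h | h)
      · obtain ⟨k', hk', rfl⟩ := emb1_eq h
        have := C.acyclic k k' (Or.inl hk')
        rw [Fin.lt_def] at this ⊢
        exact this
      · obtain ⟨k', hk', rfl⟩ := emb1_eq h
        have := C.acyclic k k' (Or.inr hk')
        rw [Fin.lt_def] at this ⊢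
        exact this
    · intro k
      rw [glue_right, glue_right]
      rintro (h | h)
      · obtain ⟨k', hk', rfl⟩ := emb2_eq h
        have := C'.acyclic k k' (Or.inl hk')
        rw [Fin.lt_def] at this ⊢
        simpa using this
      · obtain ⟨k', hk', rfl⟩ := emb2_eq h
        have := C'.acyclic k k' (Or.inr hk')
        rw [Fin.lt_def] at this ⊢
        simpa using this

theorem numAdd_eq (C : TropCircuit V) : C.numAdd = ∑ i, if C.isAdd i = true then 1 else 0 := by
  unfold TropCircuit.numAdd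
  rw [card_filter]

theorem numAdd_comb (b : Bool) (C C' : TropCircuit V) :
    (comb b C C').numAdd = C.numAdd + C'.numAdd + if b = true then 1 else 0 := by
  rw [numAdd_eq, numAdd_eq C, numAdd_eq C']
  show ∑ i : Fin (C.size + C'.size + 1), (if glue C.isAdd C'.isAdd b i = true then 1 else 0) = _
  rw [Fin.sum_univ_castSucc, glue_last, Fin.sum_univ_add]
  simp only [glue_left, glue_right]

theorem nodeVal_emb1 {s s' : ℕ} (w : V → ℝ≥0∞) (f : Fin s → ℝ≥0∞) (g : Fin s' → ℝ≥0∞) (z : ℝ≥0∞)
    (x : V ⊕ ℝ≥0∞ ⊕ Fin s) :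
    TropCircuit.nodeVal w (glue f g z) (emb1 s' x) = TropCircuit.nodeVal w f x := by
  rcases x with v | c | k
  · rfl
  · rfl
  · exact glue_left f g z k

theorem nodeVal_emb2 {s s' : ℕ} (w : V → ℝ≥0∞) (f : Fin s → ℝ≥0∞) (g : Fin s' → ℝ≥0∞) (z : ℝ≥0∞)
    (x : V ⊕ ℝ≥0∞ ⊕ Fin s') :
    TropCircuit.nodeVal w (glue f g z) (emb2 s x) = TropCircuit.nodeVal w g x := by
  rcases x with v | c | k
  · rfl
  · rfl
  · exact glue_right f g z k

theorem run_comb (b : Bool) (C C' : TropCircuit V) (w : V → ℝ≥0∞) (val : Fin C.size → ℝ≥0∞)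
    (val' : Fin C'.size → ℝ≥0∞) (h : C.IsRun w val) (h' : C'.IsRun w val') (z : ℝ≥0∞)
    (hz : z = if b = true then TropCircuit.nodeVal w val C.out + TropCircuit.nodeVal w val' C'.out
      else min (TropCircuit.nodeVal w val C.out) (TropCircuit.nodeVal w val' C'.out)) :
    (comb b C C').IsRun w (glue val val' z) ∧
      TropCircuit.nodeVal w (glue val val' z) (comb b C C').out = z := by
  refine ⟨?_, glue_last val val' z⟩
  intro i
  show glue val val' z i = if glue C.isAdd C'.isAdd b i = true then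
    TropCircuit.nodeVal w (glue val val' z) (glue (fun i => emb1 C'.size (C.left i))
      (fun i => emb2 C.size (C'.left i)) (emb1 C'.size C.out) i) +
    TropCircuit.nodeVal w (glue val val' z) (glue (fun i => emb1 C'.size (C.right i))
      (fun i => emb2 C.size (C'.right i)) (emb2 C.size C'.out) i)
    else min (TropCircuit.nodeVal w (glue val val' z) (glue (fun i => emb1 C'.size (C.left i))
      (fun i => emb2 C.size (C'.left i)) (emb1 C'.size C.out) i))
    (TropCircuit.nodeVal w (glue val val' z) (glue (fun i => emb1 C'.size (C.right i))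
      (fun i => emb2 C.size (C'.right i)) (emb2 C.size C'.out) i))
  refine cases3 (P := fun i => glue val val' z i = if glue C.isAdd C'.isAdd b i = true then
    TropCircuit.nodeVal w (glue val val' z) (glue (fun i => emb1 C'.size (C.left i))
      (fun i => emb2 C.size (C'.left i)) (emb1 C'.size C.out) i) +
    TropCircuit.nodeVal w (glue val val' z) (glue (fun i => emb1 C'.size (C.right i))
      (fun i => emb2 C.size (C'.right i)) (emb2 C.size C'.out) i)
    else min (TropCircuit.nodeVal w (glue val val' z) (glue (fun i => emb1 C'.size (C.left i))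
      (fun i => emb2 C.size (C'.left i)) (emb1 C'.size C.out) i))
    (TropCircuit.nodeVal w (glue val val' z) (glue (fun i => emb1 C'.size (C.right i))
      (fun i => emb2 C.size (C'.right i)) (emb2 C.size C'.out) i))) ?_ ?_ ?_ i
  · simp only [glue_last, nodeVal_emb1, nodeVal_emb2]
    exact hz
  · intro k
    simp only [glue_left, nodeVal_emb1]
    exact h k
  · intro k
    simp only [glue_right, nodeVal_emb2]
    exact h' k

/-- Piece (u1). -/
theorem uCirc : U_circ := by
  intro V F
  induction F with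
  | var v =>
    refine ⟨⟨0, fun i => i.elim0, fun i => i.elim0, fun i => i.elim0, Sum.inl v, fun i => i.elim0⟩, ?_,
      fun w => ⟨fun i => i.elim0, fun i => i.elim0, rfl⟩⟩
    rfl
  | const c =>
    refine ⟨⟨0, fun i => i.elim0, fun i => i.elim0, fun i => i.elim0, Sum.inr (Sum.inl c),
      fun i => i.elim0⟩, ?_, fun w => ⟨fun i => i.elim0, fun i => i.elim0, rfl⟩⟩
    rfl
  | add F F' ih ih' =>
    obtain ⟨C, h1, h2⟩ := ih
    obtain ⟨C', h1', h2'⟩ := ih'
    refine ⟨comb true C C', ?_, fun w => ?_⟩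
    · rw [numAdd_comb, h1, h1']
      rfl
    · obtain ⟨val, h3, h4⟩ := h2 w
      obtain ⟨val', h3', h4'⟩ := h2' w
      obtain ⟨h5, h6⟩ := run_comb true C C' w val val' h3 h3' _ rfl
      refine ⟨_, h5, h6.trans ?_⟩
      rw [if_pos rfl, h4, h4']
      rfl
  | min F F' ih ih' =>
    obtain ⟨C, h1, h2⟩ := ih
    obtain ⟨C', h1', h2'⟩ := ih'
    refine ⟨comb false C C', ?_, fun w => ?_⟩
    · rw [numAdd_comb, h1, h1']
      rfl
    · obtain ⟨val, h3, h4⟩ := h2 w
      obtain ⟨val', h3', h4'⟩ := h2' w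
      obtain ⟨h5, h6⟩ := run_comb false C C' w val val' h3 h3' _ rfl
      refine ⟨_, h5, h6.trans ?_⟩
      rw [if_neg (by simp), h4, h4']
      rfl

end Pool.Agent.T9h46.DP
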