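import Pool.Agent.T9h21.DP.Spec4

/-!
# DPA, piece (v1): decomposition of a parse tree in pieces, bounded weights
-/

open Finset
open scoped ENNReal

set_option autoImplicit false

namespace Pool.Agent.T9h46.DPV

open Pool.Agent.T9h48.SC Pool.Agent.T9h48.TSP Pool.Agent.T9h21.DP

variable {m : ℕ}

/-- the cuts of an addition gate with a weight -/
noncomputable def gt {C : TropCircuit (Pr m)} (g : Ad C × ℝ) : Finset (Cut m) :=
  Gt C (Sum.inr (Sum.inr g.1.1)) g.2

open Classical in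
/-- the cuts of `Gt x τ` which are in no `gt h`, `h ∈ H` -/
noncomputable def res {C : TropCircuit (Pr m)} (x : Node C) (τ : ℝ) (H : List (Ad C × ℝ)) :
    Finset (Cut m) :=
  (Gt C x τ).filter fun χ => ∀ h ∈ H, χ ∉ gt h

/-- a closed piece: gate, holes, monomial -/
abbrev Cl (C : TropCircuit (Pr m)) := (Ad C × ℝ) × List (Ad C × ℝ) × Multiset (Pr m)

/-- its cuts -/
noncomputable def rk {C : TropCircuit (Pr m)} (k : Cl C) : Finset (Cut m) :=
  res (C := C) (Sum.inr (Sum.inr k.1.1.1)) k.1.2 k.2.1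

theorem mem_res {C : TropCircuit (Pr m)} {x : Node C} {τ : ℝ} {H : List (Ad C × ℝ)} {χ : Cut m} :
    χ ∈ res x τ H ↔ χ ∈ Gt C x τ ∧ ∀ h ∈ H, χ ∉ gt h := by
  unfold res
  rw [mem_filter]

theorem mem_Gt {C : TropCircuit (Pr m)} {x : Node C} {τ : ℝ} {χ : Cut m} :
    χ ∈ Gt C x τ ↔ ∀ M c, PC C x M c → c ≠ ⊤ → kap M c ≤ τ → Hits M χ := by
  classical
  unfold Gt
  rw [mem_filter]
  exact ⟨fun h => h.2, fun h => ⟨mem_univ _, h⟩⟩

theorem kap_add (M N : Multiset (Pr m)) (c d : ℝ≥0∞) (hc : c ≠ ⊤) (hd : d ≠ ⊤) :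
    kap (M + N) (c + d) = kap M c + kap N d := by
  unfold kap
  rw [S_add, ENNReal.toReal_add hc hd]
  push_cast
  ring

theorem Hits.add_left {M N : Multiset (Pr m)} {χ : Cut m} (h : Hits M χ) : Hits (M + N) χ := by
  obtain ⟨e, he, h'⟩ := h
  exact ⟨e, Multiset.mem_add.2 (Or.inl he), h'⟩

theorem Hits.add_right {M N : Multiset (Pr m)} {χ : Cut m} (h : Hits N χ) : Hits (M + N) χ := by
  obtain ⟨e, he, h'⟩ := h
  exact ⟨e, Multiset.mem_add.2 (Or.inr he), h'⟩

theorem Hits.of_add {M N : Multiset (Pr m)} {χ : Cut m} (h : Hits (M + N) χ) :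
    Hits M χ ∨ Hits N χ := by
  obtain ⟨e, he, h'⟩ := h
  rcases Multiset.mem_add.1 he with h1 | h1
  · exact Or.inl ⟨e, h1, h'⟩
  · exact Or.inr ⟨e, h1, h'⟩

theorem Gt_add {C : TropCircuit (Pr m)} (i : Fin C.size) (hi : C.isAdd i = true)
    {M N : Multiset (Pr m)} {c d : ℝ≥0∞} (hc : c ≠ ⊤) (hd : d ≠ ⊤) {χ : Cut m}
    (h : χ ∈ Gt C (Sum.inr (Sum.inr i)) (kap (M + N) (c + d))) :
    χ ∈ Gt C (C.left i) (kap M c) ∨ χ ∈ Gt C (C.right i) (kap N d) := by
  by_contra hcon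
  rw [not_or, mem_Gt, mem_Gt] at hcon
  obtain ⟨h1, h2⟩ := hcon
  push Not at h1 h2
  obtain ⟨M', c', hM, hc', hMk, hMh⟩ := h1
  obtain ⟨N', d', hN, hd', hNk, hNh⟩ := h2
  have h3 := mem_Gt.1 h _ _ (PC.add i M' N' c' d' hi hM hN) (ENNReal.add_ne_top.2 ⟨hc', hd'⟩)
    (by rw [kap_add _ _ _ _ hc' hd', kap_add _ _ _ _ hc hd]; linarith)
  rcases Hits.of_add h3 with h4 | h4
  · exact hMh h4
  · exact hNh h4

theorem Gt_minl {C : TropCircuit (Pr m)} (i : Fin C.size) (hi : ¬ C.isAdd i = true) {τ : ℝ}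
    {χ : Cut m} (h : χ ∈ Gt C (Sum.inr (Sum.inr i)) τ) : χ ∈ Gt C (C.left i) τ :=
  mem_Gt.2 fun M c hM hc hk => mem_Gt.1 h M c (PC.minl i M c hi hM) hc hk

theorem Gt_minr {C : TropCircuit (Pr m)} (i : Fin C.size) (hi : ¬ C.isAdd i = true) {τ : ℝ}
    {χ : Cut m} (h : χ ∈ Gt C (Sum.inr (Sum.inr i)) τ) : χ ∈ Gt C (C.right i) τ :=
  mem_Gt.2 fun M c hM hc hk => mem_Gt.1 h M c (PC.minr i M c hi hM) hc hk

/-- the invariant of the decomposition -/
structure Inv (C : TropCircuit (Pr m)) (w : Cut m → ℝ) (x : Node C) (τ : ℝ)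
    (M : Multiset (Pr m)) (H : List (Ad C × ℝ)) (y : Multiset (Pr m)) (K : List (Cl C)) :
    Prop where
  sum : y + (K.map fun k => k.2.2).sum = M
  hit : ∀ χ ∈ res x τ H, Hits y χ
  small : ∑ χ ∈ res x τ H, w χ < 2
  closed : ∀ k ∈ K, (∀ χ ∈ rk k, Hits k.2.2 χ) ∧ 2 ≤ ∑ χ ∈ rk k, w χ ∧ ∑ χ ∈ rk k, w χ < 4
  cov : ∀ h ∈ H, ∀ χ ∈ gt h, ∃ k ∈ K, χ ∈ rk k
  cnt : H.length + (K.map fun k => k.2.1.length).sum ≤ K.length

theorem Inv.min {C : TropCircuit (Pr m)} {w : Cut m → ℝ} (hw : ∀ χ, 0 ≤ w χ) {x x' : Node C}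
    {τ : ℝ} {M : Multiset (Pr m)} {H : List (Ad C × ℝ)} {y : Multiset (Pr m)} {K : List (Cl C)}
    (h : Inv C w x τ M H y K) (hx : ∀ χ ∈ Gt C x' τ, χ ∈ Gt C x τ) : Inv C w x' τ M H y K := by
  have hsub : res x' τ H ⊆ res x τ H := fun χ hχ => mem_res.2 ⟨hx χ (mem_res.1 hχ).1, (mem_res.1 hχ).2⟩
  exact ⟨h.sum, fun χ hχ => h.hit χ (hsub hχ),
    lt_of_le_of_lt (sum_le_sum_of_subset_of_nonneg hsub fun χ _ _ => hw χ) h.small, h.closed, h.cov,
    h.cnt⟩

theorem exists_inv (C : TropCircuit (Pr m)) (w : Cut m → ℝ) (hw : ∀ χ, 0 ≤ w χ)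
    (he : ∀ e : Pr m, ∑ χ ∈ univ.filter (fun χ : Cut m => χ e.1 ≠ χ e.2), w χ < 1)
    {x : Node C} {M : Multiset (Pr m)} {c : ℝ≥0∞} (hM : PC C x M c) :
    c ≠ ⊤ → ∃ H y K, Inv C w x (kap M c) M H y K := by
  induction hM with
  | var e =>
    intro _
    refine ⟨[], {e}, [], ⟨by simp, ?_, ?_, by simp, by simp, by simp⟩⟩
    · intro χ hχ
      exact mem_Gt.1 (mem_res.1 hχ).1 _ _ (PC.var e) (by simp) le_rfl
    · refine lt_of_le_of_lt (sum_le_sum_of_subset_of_nonneg ?_ fun χ _ _ => hw χ)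
        ((he e).trans (by norm_num))
      intro χ hχ
      obtain ⟨e', h1, h2⟩ := mem_Gt.1 (mem_res.1 hχ).1 _ _ (PC.var e) (by simp) le_rfl
      rw [Multiset.mem_singleton] at h1
      rw [h1] at h2
      exact mem_filter.2 ⟨mem_univ _, h2⟩
  | const c =>
    intro hc
    have h0 : ∀ χ, ¬ χ ∈ res (C := C) (Sum.inr (Sum.inl c)) (kap (0 : Multiset (Pr m)) c) [] := by
      intro χ hχ
      obtain ⟨e', h1, h2⟩ := mem_Gt.1 (mem_res.1 hχ).1 _ _ (PC.const c) hc le_rfl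
      exact absurd h1 (Multiset.notMem_zero _)
    refine ⟨[], 0, [], ⟨by simp, fun χ hχ => absurd hχ (h0 χ), ?_, by simp, by simp, by simp⟩⟩
    rw [sum_eq_zero fun χ hχ => absurd hχ (h0 χ)]
    norm_num
  | add i M N c d hi hM hN ih1 ih2 =>
    intro hcd
    obtain ⟨hc, hd⟩ := ENNReal.add_ne_top.1 hcd
    obtain ⟨H1, y1, K1, I1⟩ := ih1 hc
    obtain ⟨H2, y2, K2, I2⟩ := ih2 hd
    have hsub : res (C := C) (Sum.inr (Sum.inr i)) (kap (M + N) (c + d)) (H1 ++ H2) ⊆ res (C.left i) (kap M c) H1 ∪ res (C.right i) (kap N d) H2 := by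
      intro χ hχ
      obtain ⟨h1, h2⟩ := mem_res.1 hχ
      rcases Gt_add i hi hc hd h1 with h3 | h3
      · exact mem_union_left _ (mem_res.2 ⟨h3, fun h hh => h2 h (List.mem_append_left _ hh)⟩)
      · exact mem_union_right _ (mem_res.2 ⟨h3, fun h hh => h2 h (List.mem_append_right _ hh)⟩)
    have hhit : ∀ χ ∈ res (C := C) (Sum.inr (Sum.inr i)) (kap (M + N) (c + d)) (H1 ++ H2), Hits (y1 + y2) χ := by
      intro χ hχ
      rcases mem_union.1 (hsub hχ) with h | h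
      · exact Hits.add_left (I1.hit χ h)
      · exact Hits.add_right (I2.hit χ h)
    have hlt : ∑ χ ∈ res (C := C) (Sum.inr (Sum.inr i)) (kap (M + N) (c + d)) (H1 ++ H2), w χ < 4 := by
      have h1 := sum_le_sum_of_subset_of_nonneg (f := w) hsub fun χ _ _ => hw χ
      have h2 : ∑ χ ∈ res (C.left i) (kap M c) H1 ∪ res (C.right i) (kap N d) H2, w χ ≤
          ∑ χ ∈ res (C.left i) (kap M c) H1, w χ + ∑ χ ∈ res (C.right i) (kap N d) H2, w χ := by
        rw [← sum_union_inter]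
        have := sum_nonneg (s := res (C.left i) (kap M c) H1 ∩ res (C.right i) (kap N d) H2) fun χ _ => hw χ
        linarith
      have h3 := I1.small
      have h4 := I2.small
      linarith
    have hcl : ∀ k ∈ K1 ++ K2, (∀ χ ∈ rk k, Hits k.2.2 χ) ∧ 2 ≤ ∑ χ ∈ rk k, w χ ∧
        ∑ χ ∈ rk k, w χ < 4 := by
      intro k hk
      rcases List.mem_append.1 hk with h | h
      · exact I1.closed k h
      · exact I2.closed k h
    have hcov : ∀ h ∈ H1 ++ H2, ∀ χ ∈ gt h, ∃ k ∈ K1 ++ K2, χ ∈ rk k := by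
      intro h hh χ hχ
      rcases List.mem_append.1 hh with h' | h'
      · obtain ⟨k, hk, hk'⟩ := I1.cov h h' χ hχ
        exact ⟨k, List.mem_append_left _ hk, hk'⟩
      · obtain ⟨k, hk, hk'⟩ := I2.cov h h' χ hχ
        exact ⟨k, List.mem_append_right _ hk, hk'⟩
    have hcnt : (H1 ++ H2).length + ((K1 ++ K2).map fun k => k.2.1.length).sum ≤ (K1 ++ K2).length := by
      have h1 := I1.cnt
      have h2 := I2.cnt
      rw [List.map_append, List.sum_append, List.length_append, List.length_append]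
      omega
    have hsum : y1 + y2 + ((K1 ++ K2).map fun k => k.2.2).sum = M + N := by
      rw [List.map_append, List.sum_append, ← I1.sum, ← I2.sum]
      ac_rfl
    by_cases hs : ∑ χ ∈ res (C := C) (Sum.inr (Sum.inr i)) (kap (M + N) (c + d)) (H1 ++ H2), w χ < 2
    · exact ⟨H1 ++ H2, y1 + y2, K1 ++ K2, ⟨hsum, hhit, hs, hcl, hcov, hcnt⟩⟩
    · rw [not_lt] at hs
      set g : Ad C × ℝ := (⟨i, hi⟩, kap (M + N) (c + d)) with hg
      have hempty : ∀ χ, ¬ χ ∈ res (C := C) (Sum.inr (Sum.inr i)) (kap (M + N) (c + d)) [g] := by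
        intro χ hχ
        obtain ⟨h1, h2⟩ := mem_res.1 hχ
        exact h2 g (by simp) h1
      refine ⟨[g], 0, (g, H1 ++ H2, y1 + y2) :: (K1 ++ K2), ⟨?_, fun χ hχ => absurd hχ (hempty χ), ?_, ?_, ?_, ?_⟩⟩
      · rw [List.map_cons, List.sum_cons, zero_add]
        exact hsum
      · rw [sum_eq_zero fun χ hχ => absurd hχ (hempty χ)]
        norm_num
      · intro k hk
        rcases List.mem_cons.1 hk with rfl | hk
        · exact ⟨hhit, hs, hlt⟩
        · exact hcl k hk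
      · intro h hh χ hχ
        rw [List.mem_singleton] at hh
        rw [hh] at hχ
        by_cases hχ' : ∃ h' ∈ H1 ++ H2, χ ∈ gt h'
        · obtain ⟨h', hh', hχ''⟩ := hχ'
          obtain ⟨k, hk, hk'⟩ := hcov h' hh' χ hχ''
          exact ⟨k, List.mem_cons_of_mem _ hk, hk'⟩
        · push Not at hχ'
          exact ⟨_, List.mem_cons_self, mem_res.2 ⟨hχ, hχ'⟩⟩
      · rw [List.map_cons, List.sum_cons, List.length_cons, List.length_cons, List.length_nil]
        have h := hcnt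
        dsimp only
        omega
  | minl i M c hi hM ih =>
    intro hc
    obtain ⟨H, y, K, I⟩ := ih hc
    exact ⟨H, y, K, I.min hw fun χ hχ => Gt_minl i hi hχ⟩
  | minr i M c hi hM ih =>
    intro hc
    obtain ⟨H, y, K, I⟩ := ih hc
    exact ⟨H, y, K, I.min hw fun χ hχ => Gt_minr i hi hχ⟩

theorem wt_cover (w : Cut m → ℝ) (hw : ∀ χ, 0 ≤ w χ) (LL : List (Finset (Cut m))) :
    ∀ D : Finset (Cut m), (∀ χ ∈ D, ∃ E ∈ LL, χ ∈ E) → ∑ χ ∈ D, w χ ≤ (LL.map fun E => ∑ χ ∈ E, w χ).sum := by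
  induction LL with
  | nil =>
    intro D hD
    have h0 : ∀ χ ∈ D, False := fun χ hχ => by
      obtain ⟨E, hE, _⟩ := hD χ hχ
      exact absurd hE List.not_mem_nil
    rw [sum_eq_zero fun χ hχ => (h0 χ hχ).elim]
    simp
  | cons E LL ih =>
    intro D hD
    rw [List.map_cons, List.sum_cons]
    have h1 : ∑ χ ∈ D, w χ = ∑ χ ∈ D.filter (fun χ => χ ∈ E), w χ + ∑ χ ∈ D.filter (fun χ => χ ∉ E), w χ :=
      (sum_filter_add_sum_filter_not D (fun χ => χ ∈ E) w).symm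
    have h2 : ∑ χ ∈ D.filter (fun χ => χ ∈ E), w χ ≤ ∑ χ ∈ E, w χ :=
      sum_le_sum_of_subset_of_nonneg (fun χ hχ => (mem_filter.1 hχ).2) fun χ _ _ => hw χ
    have h3 := ih (D.filter (fun χ => χ ∉ E)) (by
      intro χ hχ
      obtain ⟨hχ1, hχ2⟩ := mem_filter.1 hχ
      obtain ⟨F, hF, hχF⟩ := hD χ hχ1
      rcases List.mem_cons.1 hF with rfl | hF
      · exact absurd hχF hχ2
      · exact ⟨F, hF, hχF⟩)
    linarith

theorem sum_le_four {C : TropCircuit (Pr m)} (w : Cut m → ℝ) (K : List (Cl C)) :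
    (∀ k ∈ K, ∑ χ ∈ rk k, w χ < 4) → (K.map fun k => ∑ χ ∈ rk k, w χ).sum ≤ 4 * K.length := by
  induction K with
  | nil => intro _; simp
  | cons k K ih =>
    intro h
    rw [List.map_cons, List.sum_cons, List.length_cons]
    have h1 := h k List.mem_cons_self
    have h2 := ih fun k' hk' => h k' (List.mem_cons_of_mem _ hk')
    push_cast
    linarith

theorem count_few {C : TropCircuit (Pr m)} (K : List (Cl C)) :
    3 * K.length ≤ 3 * (K.filter fun k => decide (k.2.1.length ≤ 2)).length +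
      (K.map fun k => k.2.1.length).sum := by
  induction K with
  | nil => simp
  | cons k K ih =>
    rw [List.map_cons, List.sum_cons, List.length_cons]
    by_cases hk : k.2.1.length ≤ 2
    · rw [List.filter_cons_of_pos (by simpa using hk), List.length_cons]
      omega
    · rw [List.filter_cons_of_neg (by simpa using hk)]
      omega

theorem sum_filter_le {C : TropCircuit (Pr m)} (K : List (Cl C)) :
    ((K.filter fun k => decide (k.2.1.length ≤ 2)).map fun k => k.2.2).sum ≤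
      (K.map fun k => k.2.2).sum := by
  induction K with
  | nil => simp
  | cons k K ih =>
    rw [List.map_cons, List.sum_cons]
    by_cases hk : k.2.1.length ≤ 2
    · rw [List.filter_cons_of_pos (by simpa using hk), List.map_cons, List.sum_cons]
      exact add_le_add_right ih _
    · rw [List.filter_cons_of_neg (by simpa using hk)]
      exact ih.trans (Multiset.le_add_left _ _)

theorem fam {C : TropCircuit (Pr m)} (k : Cl C) (hk : k.2.1.length ≤ 2) : FamT C (rk k) := by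
  obtain ⟨g, H, y⟩ := k
  have hk' : H.length ≤ 2 := hk
  match H, hk' with
  | [], _ =>
    refine ⟨g, none, none, ?_⟩
    ext χ
    rw [rk, mem_res, mem_sdiff, mem_union]
    simp [GtO, gt]
  | [h], _ =>
    refine ⟨g, some h, none, ?_⟩
    ext χ
    rw [rk, mem_res, mem_sdiff, mem_union]
    simp [GtO, gt]
  | [h, h'], _ =>
    refine ⟨g, some h, some h', ?_⟩
    ext χ
    rw [rk, mem_res, mem_sdiff, mem_union]
    simp [GtO, gt]
  | _ :: _ :: _ :: _, hh =>
    exfalso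
    simp at hh

/-- Piece (v1). -/
theorem vPiece (m : ℕ) : V_piece m := by
  intro C w hw he x M c hM hc
  obtain ⟨H, y, K, I⟩ := exists_inv C w hw he hM hc
  refine ⟨(K.filter fun k => decide (k.2.1.length ≤ 2)).map fun k => (rk k, k.2.2), ?_, ?_, ?_⟩
  · rw [List.map_map, ← I.sum]
    exact (sum_filter_le K).trans (Multiset.le_add_left _ _)
  · intro q hq
    obtain ⟨k, hk, rfl⟩ := List.mem_map.1 hq
    obtain ⟨hk1, hk2⟩ := List.mem_filter.1 hk
    obtain ⟨h1, h2, h3⟩ := I.closed k hk1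
    exact ⟨fam k (by simpa using hk2), h1, h2, h3⟩
  · have h1 := wt_cover w hw (res x (kap M c) H :: K.map rk) (Gt C x (kap M c)) (by
      intro χ hχ
      by_cases h : ∃ h ∈ H, χ ∈ gt h
      · obtain ⟨h, hh, hχ'⟩ := h
        obtain ⟨k, hk, hk'⟩ := I.cov h hh χ hχ'
        exact ⟨rk k, List.mem_cons_of_mem _ (List.mem_map_of_mem hk), hk'⟩
      · push Not at h
        exact ⟨_, List.mem_cons_self, mem_res.2 ⟨hχ, h⟩⟩)
    rw [List.map_cons, List.sum_cons, List.map_map] at h1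
    have h2 := sum_le_four w K fun k hk => (I.closed k hk).2.2
    have h3 := I.small
    have h4 : 2 * K.length ≤ 3 * (K.filter fun k => decide (k.2.1.length ≤ 2)).length := by
      have := count_few K
      have := I.cnt
      omega
    have h5 : 2 * (K.length : ℝ) ≤ 3 * ((K.filter fun k => decide (k.2.1.length ≤ 2)).length : ℝ) := by
      exact_mod_cast h4
    rw [List.length_map]
    have h6 : (K.map ((fun E : Finset (Cut m) => ∑ χ ∈ E, w χ) ∘ rk)).sum =
      (K.map fun k => ∑ χ ∈ rk k, w χ).sum := rfl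
    rw [h6] at h1
    linarith

end Pool.Agent.T9h46.DPV
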